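import Mathlib

set_option autoImplicit false
open Set Filter TopologicalSpace
open scoped Topology

namespace Pool.Agent.Results.MP_8652de_gt.NotHurewicz

universe u

/-- The Hurewicz property. -/
def Hurewicz (X : Type u) [TopologicalSpace X] : Prop :=
  ∀ U : ℕ → Set (Set X), (∀ n, (∀ s ∈ U n, IsOpen s) ∧ ⋃₀ U n = univ) →
    ∃ V : ℕ → Set (Set X), (∀ n, V n ⊆ U n ∧ (V n).Finite) ∧ ∀ x, ∀ᶠ n in atTop, x ∈ ⋃₀ V n

section
variable {X K : Type u} [TopologicalSpace X] [TopologicalSpace K] [CompactSpace K] [T2Space K]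

omit [T2Space K] in
lemma tree (hH : Hurewicz X) (e : X ≃ K) {ι : Type u} (F : ι → Set K)
    (hF : ∀ i, IsClosed (F i) ∧ (F i).Nonempty) (W : ι → ℕ → Set K)
    (hWo : ∀ i n, IsOpen (e ⁻¹' W i n)) (hWm : ∀ i, Monotone (W i)) (hWc : ∀ i y, ∃ n, y ∈ W i n)
    (next : ι → ℕ → ι) (hn : ∀ i n, F (next i n) ⊆ F i) (i0 : ι) :
    ∃ (s : ℕ → ι) (n : ℕ → ℕ) (y : K), (∀ k, s (k + 1) = next (s k) (n k)) ∧
      (∀ k, y ∈ F (s k)) ∧ ∀ᶠ k in atTop, y ∈ W (s k) (n k) := by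
  let node : List ℕ → ι := fun l => l.foldr (fun n i => next i n) i0
  let en : List ℕ ≃ ℕ := Denumerable.eqv (List ℕ)
  obtain ⟨V, hV, hx⟩ := hH (fun j => range (fun n => e ⁻¹' W (node (en.symm j)) n)) (fun j =>
    ⟨by rintro _ ⟨n, rfl⟩; exact hWo _ _, by
      refine eq_univ_of_forall fun x => ?_
      obtain ⟨n, h⟩ := hWc (node (en.symm j)) (e x)
      exact ⟨_, ⟨n, rfl⟩, h⟩⟩)
  have hN : ∀ j, ∃ N, ⋃₀ V j ⊆ e ⁻¹' W (node (en.symm j)) N := by
    intro j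
    obtain ⟨T, hT, hTV⟩ := (finite_subset_iUnion_of_subset_range (hV j).2 (hV j).1)
    obtain ⟨N, hN⟩ := hT.bddAbove
    refine ⟨N, ?_⟩
    rintro x ⟨s, hs, hxs⟩
    obtain ⟨n, hn, rfl⟩ := hTV hs
    exact hWm _ (hN hn) hxs
  choose N hN using hN
  let l : ℕ → List ℕ := fun k => Nat.rec [] (fun _ s => N (en s) :: s) k
  have hl : ∀ k, l (k + 1) = N (en (l k)) :: l k := fun _ => rfl
  have hlen : ∀ k, (l k).length = k := by
    intro k
    induction k with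
    | zero => rfl
    | succ k ih => rw [hl, List.length_cons, ih]
  have hinj : Function.Injective (fun k => en (l k)) := by
    intro a b h
    have := congrArg List.length (en.injective h)
    rwa [hlen, hlen] at this
  obtain ⟨y, hy⟩ := IsCompact.nonempty_iInter_of_sequence_nonempty_isCompact_isClosed
    (fun k => F (node (l k))) (fun k => hn _ _) (fun k => (hF _).2) (hF _).1.isCompact
    (fun k => (hF _).1)
  refine ⟨fun k => node (l k), fun k => N (en (l k)), y, fun k => rfl, mem_iInter.1 hy, ?_⟩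
  filter_upwards [hinj.nat_tendsto_atTop.eventually (hx (e.symm y))] with k hk
  have := hN _ hk
  simpa using this
where
  finite_subset_iUnion_of_subset_range {α : Type u} {f : ℕ → α} {V : Set α} (h : V.Finite)
      (hs : V ⊆ range f) : ∃ T : Set ℕ, T.Finite ∧ V ⊆ f '' T := by
    obtain ⟨T, -, hT, rfl⟩ := (h.exists_subset_finite_image_eq (u := V) (s := univ) (f := f)
      (by simpa using hs))
    exact ⟨T, hT, subset_rfl⟩

lemma sep (hH : Hurewicz X) (e : X ≃ K) (he : Continuous e) {S : Set K}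
    (hS : IsClosed (e ⁻¹' S)) {p : K} (hp : p ∉ S) :
    ∃ N : ℕ → Set K, Antitone N ∧ (∀ n, N n ∈ 𝓝 p ∧ IsClosed (N n)) ∧ ∀ y ∈ S, ∃ n, y ∉ N n := by
  obtain ⟨V, hV, hx⟩ := hH (fun _ => {s | ∃ M ∈ 𝓝 p, IsClosed M ∧ s = (e ⁻¹' S)ᶜ ∪ e ⁻¹' Mᶜ})
    (fun _ => ⟨by
      rintro _ ⟨M, -, hM, rfl⟩
      exact hS.isOpen_compl.union (hM.isOpen_compl.preimage he), by
      refine eq_univ_of_forall fun x => ?_
      by_cases hx : e x ∈ S
      · have : e x ≠ p := fun h => hp (h ▸ hx)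
        obtain ⟨M, h1, h2, h3⟩ := exists_mem_nhds_isClosed_subset
          (isOpen_compl_singleton.mem_nhds (show p ∈ ({e x}ᶜ : Set K) from this.symm))
        exact ⟨_, ⟨M, h1, h2, rfl⟩, Or.inr (fun h => h3 h rfl)⟩
      · exact ⟨_, ⟨univ, univ_mem, isClosed_univ, rfl⟩, Or.inl hx⟩⟩)
  have hM : ∀ n, ∃ M ∈ 𝓝 p, IsClosed M ∧ ∀ y ∈ S, e.symm y ∈ ⋃₀ V n → y ∉ M := by
    intro n
    have h1 : ∀ s : V n, ∃ M ∈ 𝓝 p, IsClosed M ∧ s.1 = (e ⁻¹' S)ᶜ ∪ e ⁻¹' Mᶜ :=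
      fun s => (hV n).1 s.2
    choose M h2 h3 h4 using h1
    haveI := (hV n).2.to_subtype
    refine ⟨⋂ s, M s, iInter_mem.2 h2, isClosed_iInter h3, ?_⟩
    rintro y hy ⟨s, hs, hys⟩ hM
    have h5 : e.symm y ∈ (e ⁻¹' S)ᶜ ∪ e ⁻¹' (M ⟨s, hs⟩)ᶜ := h4 ⟨s, hs⟩ ▸ hys
    rcases h5 with h | h
    · exact h (by simpa using hy)
    · exact h (by simpa using mem_iInter.1 hM ⟨s, hs⟩)
  choose M h1 h2 h3 using hM
  refine ⟨fun n => ⋂ m ∈ Iic n, M m, fun a b hab => biInter_subset_biInter_left (Iic_subset_Iic.2 hab),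
    fun n => ⟨(biInter_mem (finite_Iic n)).2 (fun m _ => h1 m),
      isClosed_biInter (fun m _ => h2 m)⟩, fun y hy => ?_⟩
  obtain ⟨n, hn⟩ := (hx (e.symm y)).exists
  exact ⟨n, fun h => h3 n y hy hn (mem_iInter₂.1 h n (mem_Iic.2 le_rfl))⟩

lemma resolv (hH : Hurewicz X) (e : X ≃ K) (he : Continuous e) {A C : Set K}
    (hA : IsClopen (e ⁻¹' A)) (hC : IsClosed C) (hne : C.Nonempty) :
    ∃ O, IsOpen O ∧ (O ∩ C).Nonempty ∧ (O ∩ C ⊆ A ∨ O ∩ C ⊆ Aᶜ) := by
  by_contra hcon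
  push Not at hcon
  let ι := {O : Set K // IsOpen O ∧ (O ∩ C).Nonempty} × Bool
  let side : Bool → Set K := fun b => if b then A else Aᶜ
  have hside : ∀ b, IsClopen (e ⁻¹' side b) := by
    intro b; cases b
    · exact hA.compl
    · exact hA
  have step : ∀ i : ι, ∃ (N : ℕ → Set K) (nx : ℕ → ι), Antitone N ∧ (∀ n, IsClosed (N n)) ∧
      (∀ y ∈ side i.2, ∃ n, y ∉ N n) ∧
      ∀ n, (nx n).2 = !i.2 ∧ closure (nx n).1.1 ⊆ N n ∩ closure i.1.1 := by
    rintro ⟨⟨O, hO, hOn⟩, b⟩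
    obtain ⟨p, hp, hps⟩ : ∃ p ∈ O ∩ C, p ∉ side b := by
      have := hcon O hO hOn
      cases b
      · exact not_subset.1 this.2
      · exact not_subset.1 this.1
    obtain ⟨N, h1, h2, h3⟩ := sep hH e he (hside b).1 hps
    refine ⟨N, fun n => (⟨interior (N n) ∩ O, isOpen_interior.inter hO,
      p, ⟨mem_interior_iff_mem_nhds.2 (h2 n).1, hp.1⟩, hp.2⟩, !b), h1, fun n => (h2 n).2, h3,
      fun n => ⟨rfl, subset_inter ?_ (closure_mono inter_subset_right)⟩⟩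
    exact closure_minimal (inter_subset_left.trans interior_subset) (h2 n).2
  choose N nx h1 h2 h3 h4 using step
  obtain ⟨s, n, y, a1, a2, a3⟩ := tree hH e (fun i : ι => closure i.1.1 ∩ C)
    (fun i => ⟨isClosed_closure.inter hC, i.1.2.2.mono (inter_subset_inter_left _ subset_closure)⟩)
    (fun i n => (side i.2)ᶜ ∪ (N i n)ᶜ)
    (fun i n => (hside _).1.isOpen_compl.union ((h2 i n).isOpen_compl.preimage he))
    (fun i a b hab => union_subset_union_right _ (compl_subset_compl.2 (h1 i hab)))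
    (fun i y => by
      by_cases hy : y ∈ side i.2
      · exact (h3 i y hy).imp (fun n h => Or.inr h)
      · exact ⟨0, Or.inl hy⟩)
    nx (fun i n => inter_subset_inter_left _ ((h4 i n).2.trans inter_subset_right))
    (⟨univ, isOpen_univ, by simpa using hne⟩, true)
  have b1 : ∀ᶠ k in atTop, y ∉ side (s k).2 := by
    filter_upwards [a3] with k hk
    have := (a2 (k + 1)).1
    rw [a1] at this
    exact hk.resolve_right (fun h => h ((h4 _ _).2 this).1)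
  obtain ⟨k, hk⟩ := eventually_atTop.1 b1
  have c1 := hk k le_rfl
  have c2 := hk (k + 1) (Nat.le_succ k)
  rw [a1, (h4 _ _).1] at c2
  revert c1 c2
  cases (s k).2 <;> simp [side]

lemma bump {C U : Set K} (hC : IsClosed C) (hc : IsPreconnected C) (hn : C.Nontrivial)
    (hU : IsOpen U) (hne : (U ∩ C).Nonempty) :
    ∃ D ⊆ U ∩ C, IsClosed D ∧ IsPreconnected D ∧ D.Nontrivial := by
  obtain ⟨v, hvU, hvC⟩ := hne
  obtain ⟨w, hw, hwv⟩ := hn.exists_ne v
  obtain ⟨M, h1, h2, h3⟩ := exists_mem_nhds_isClosed_subset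
    ((hU.inter isOpen_compl_singleton).mem_nhds (show v ∈ U ∩ {w}ᶜ from ⟨hvU, hwv.symm⟩))
  by_contra hcon
  push Not at hcon
  have hT : IsClosed (M ∩ C) := h2.inter hC
  have htd : IsTotallyDisconnected (M ∩ C) := by
    intro t ht hp
    have h4 : closure t ⊆ M ∩ C := closure_minimal ht hT
    have := hcon (closure t) (fun z hz => ⟨(h3 (h4 hz).1).1, (h4 hz).2⟩) isClosed_closure hp.closure
    exact this.anti subset_closure
  haveI : TotallyDisconnectedSpace (M ∩ C : Set K) := totallyDisconnectedSpace_subtype_iff.2 htd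
  haveI : CompactSpace (M ∩ C : Set K) := isCompact_iff_compactSpace.1 hT.isCompact
  obtain ⟨V, hV, hvV, hVM⟩ := compact_exists_isClopen_in_isOpen
    (x := (⟨v, mem_of_mem_nhds h1, hvC⟩ : (M ∩ C : Set K)))
    (isOpen_interior.preimage continuous_subtype_val)
    (show _ ∈ Subtype.val ⁻¹' interior M from mem_interior_iff_mem_nhds.2 h1)
  obtain ⟨G, hG, hGV⟩ := isOpen_induced_iff.1 hV.2
  have hcl : IsClosed (Subtype.val '' V) := hT.isClosedEmbedding_subtypeVal.isClosedMap _ hV.1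
  obtain ⟨z, -, ⟨z', hz', rfl⟩, hz2⟩ := isPreconnected_closed_iff.1 hc _ _ hcl
    (hG.inter (isOpen_interior (s := M))).isClosed_compl
    (fun z hz => by
      by_cases h : z ∈ G ∩ interior M
      · exact Or.inl ⟨⟨z, interior_subset h.2, hz⟩, hGV ▸ h.1, rfl⟩
      · exact Or.inr h)
    ⟨v, hvC, _, hvV, rfl⟩ ⟨w, hw, fun h => (h3 (interior_subset h.2)).2 rfl⟩
  exact hz2 ⟨(hGV ▸ hz' : z' ∈ Subtype.val ⁻¹' G), hVM hz'⟩

lemma escape (hH : Hurewicz X) (e : X ≃ K) (he : Continuous e) {A C O : Set K}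
    (hA : IsClopen (e ⁻¹' A)) (hC : IsClosed C) (hc : IsPreconnected C) (hn : C.Nontrivial)
    (hO : IsOpen O) (hne : (O ∩ (C ∩ (closure (A ∩ C) ∩ closure (Aᶜ ∩ C)))).Nonempty)
    (hs : O ∩ (C ∩ (closure (A ∩ C) ∩ closure (Aᶜ ∩ C))) ⊆ A) :
    ∃ (W : ℕ → Set K) (D : ℕ → Set K), (∀ n, IsOpen (e ⁻¹' W n)) ∧ Monotone W ∧
      (∀ y, ∃ n, y ∈ W n) ∧ ∀ n, (IsClosed (D n) ∧ IsPreconnected (D n) ∧ (D n).Nontrivial) ∧
        D n ⊆ C ∧ ∀ y ∈ D n, y ∉ W n := by
  obtain ⟨p, hp⟩ := hne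
  obtain ⟨N, h1, h2, h3⟩ := sep hH e he (S := Aᶜ) hA.compl.1 (p := p) (fun h => h (hs hp))
  have hD : ∀ n, ∃ D ⊆ (interior (N n) ∩ O ∩ (closure (A ∩ C))ᶜ) ∩ C,
      IsClosed D ∧ IsPreconnected D ∧ D.Nontrivial := by
    intro n
    refine bump hC hc hn ((isOpen_interior.inter hO).inter isClosed_closure.isOpen_compl) ?_
    obtain ⟨b, hb1, hb2⟩ := mem_closure_iff.1 hp.2.2.2 _ (isOpen_interior.inter hO)
      ⟨mem_interior_iff_mem_nhds.2 (h2 n).1, hp.1⟩
    exact ⟨b, ⟨hb1, fun h => hb2.1 (hs ⟨hb1.2, hb2.2, h, subset_closure hb2⟩)⟩, hb2.2⟩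
  choose D d1 d2 using hD
  refine ⟨fun n => A ∪ (N n)ᶜ, D, fun n => hA.2.union ((h2 n).2.isOpen_compl.preimage he),
    fun a b hab => union_subset_union_right _ (compl_subset_compl.2 (h1 hab)), fun y => ?_,
    fun n => ⟨d2 n, fun y hy => (d1 n hy).2, fun y hy h => ?_⟩⟩
  · by_cases hy : y ∈ A
    · exact ⟨0, Or.inl hy⟩
    · exact (h3 y hy).imp (fun n h => Or.inr h)
  · rcases h with h | h
    · exact (d1 n hy).1.2 (subset_closure ⟨h, (d1 n hy).2⟩)
    · exact h (interior_subset (d1 n hy).1.1.1)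

lemma main (hH : Hurewicz X) (e : X ≃ K) (he : Continuous e)
    (hb : IsTopologicalBasis {s : Set X | IsClopen s}) : TotallyDisconnectedSpace K := by
  refine ⟨fun t _ ht => ?_⟩
  by_contra hnt
  let ι := {C : Set K // IsClosed C ∧ IsPreconnected C ∧ C.Nontrivial}
  have step : ∀ i : ι, ∃ (W : ℕ → Set K) (D : ℕ → Set K), (∀ n, IsOpen (e ⁻¹' W n)) ∧ Monotone W ∧
      (∀ y, ∃ n, y ∈ W n) ∧ ∀ n, (IsClosed (D n) ∧ IsPreconnected (D n) ∧ (D n).Nontrivial) ∧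
        D n ⊆ i.1 ∧ ∀ y ∈ D n, y ∉ W n := by
    rintro ⟨C, hC, hc, hn⟩
    obtain ⟨x, hx, y, hy, hxy⟩ := id hn
    obtain ⟨B, hB, hxB, hBy⟩ := hb.exists_subset_of_mem_open
      (show e.symm x ∈ e ⁻¹' {y}ᶜ by simpa using hxy) (isOpen_compl_singleton.preimage he)
    have hA : IsClopen (e ⁻¹' (e '' B)) := by rwa [e.preimage_image]
    have hxA : x ∈ e '' B := ⟨_, hxB, by simp⟩
    have hyA : y ∉ e '' B := by
      rintro ⟨z, hz, rfl⟩; exact hBy hz rfl
    generalize e '' B = A at hA hxA hyA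
    have hP : (C ∩ (closure (A ∩ C) ∩ closure (Aᶜ ∩ C))).Nonempty :=
      isPreconnected_closed_iff.1 hc _ _ isClosed_closure isClosed_closure
        (fun z hz => by
          by_cases h : z ∈ A
          · exact Or.inl (subset_closure ⟨h, hz⟩)
          · exact Or.inr (subset_closure ⟨h, hz⟩))
        ⟨x, hx, subset_closure ⟨hxA, hx⟩⟩ ⟨y, hy, subset_closure ⟨hyA, hy⟩⟩
    obtain ⟨O, hO, hne, h | h⟩ := resolv hH e he hA
      (hC.inter (isClosed_closure.inter isClosed_closure)) hP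
    · exact escape hH e he hA hC hc hn hO hne h
    · refine escape hH e he (A := Aᶜ) hA.compl hC hc hn hO ?_ ?_
      · rwa [compl_compl, inter_comm (closure (Aᶜ ∩ C))]
      · rwa [compl_compl, inter_comm (closure (Aᶜ ∩ C))]
  choose W D h1 h2 h3 h4 using step
  obtain ⟨s, n, y, a1, a2, a3⟩ := tree hH e (fun i : ι => i.1)
    (fun i => ⟨i.2.1, i.2.2.2.nonempty⟩) W h1 h2 h3 (fun i n => ⟨D i n, (h4 i n).1⟩)
    (fun i n => (h4 i n).2.1)
    ⟨closure t, isClosed_closure, ht.closure, (not_subsingleton_iff.1 hnt).mono subset_closure⟩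
  obtain ⟨k, hk⟩ := a3.exists
  have := a2 (k + 1)
  rw [a1] at this
  exact (h4 _ _).2.2 y this hk

end

theorem result (X : Type u) (T₁ T₂ : TopologicalSpace X)
    (hle : ∀ s, IsOpen[T₂] s → IsOpen[T₁] s) (_ : @NormalSpace X T₁)
    (hc : @CompactSpace X T₂) (h2 : @T2Space X T₂)
    (h0 : @smallInductiveDimension X T₁ = 0) (hpos : 0 < @smallInductiveDimension X T₂) :
    ¬ @Hurewicz X T₁ := by
  intro hH
  have hb : @IsTopologicalBasis X T₁ {s | @IsClopen X T₁ s} := by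
    letI := T₁
    exact hasSmallInductiveDimensionLT_one_iff.1
      ((smallInductiveDimension_le_iff (n := 0)).1 (by simpa using h0.le))
  have htd := @main X X T₁ T₂ hc h2 hH (Equiv.refl X) (@Continuous.mk X X T₁ T₂ _ hle) hb
  letI := T₂
  have : smallInductiveDimension X ≤ (0 : ℕ) := smallInductiveDimension_le_iff.2
    (hasSmallInductiveDimensionLT_one_iff.2 isTopologicalBasis_isClopen)
  exact absurd hpos (not_lt.2 (by simpa using this))

end Pool.Agent.Results.MP_8652de_gt.NotHurewicz
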